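import Pool.Agent.H17.BO.TargetsD

/-!
MP_70ba79_ag, board `bo_modules`, row ULF: ultraproducts of fields of characteristic 0.
-/

set_option autoImplicit false

open Filter

namespace Pool.Agent.H72.BO

open MvPolynomial SC Pool.Agent.H27.LV Pool.Agent.H17.VG Pool.Agent.H17.BO

/-- the ideal of sequences which vanish along the ultrafilter -/
def UI (R : ℕ → Type) [∀ j, CommRing (R j)] : Ideal (∀ j, R j) where
  carrier := {f | ∀ᶠ j in (hyperfilter ℕ : Filter ℕ), f j = 0}
  add_mem' {a b} ha hb := by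
    simp only [Set.mem_ofPred_eq] at *
    filter_upwards [ha, hb] with j h1 h2
    simp [h1, h2]
  zero_mem' := Eventually.of_forall fun _ => rfl
  smul_mem' c f hf := by
    simp only [Set.mem_ofPred_eq] at *
    filter_upwards [hf] with j h
    simp [h]

theorem mem_UI {R : ℕ → Type} [∀ j, CommRing (R j)] (f : ∀ j, R j) :
    f ∈ UI R ↔ ∀ᶠ j in (hyperfilter ℕ : Filter ℕ), f j = 0 := Iff.rfl

theorem UI_max (K : ℕ → Type) [∀ j, Field (K j)] : (UI K).IsMaximal := by
  classical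
  rw [Ideal.isMaximal_iff]
  constructor
  · intro h
    rw [mem_UI] at h
    obtain ⟨j, hj⟩ := h.exists
    exact one_ne_zero hj
  · intro J x hIJ hx hxJ
    have h1 : ∀ᶠ j in (hyperfilter ℕ : Filter ℕ), x j ≠ 0 := by
      rw [mem_UI] at hx
      exact Ultrafilter.eventually_not.2 hx
    have h2 : (1 - x * (fun j => (x j)⁻¹) : ∀ j, K j) ∈ UI K := by
      rw [mem_UI]
      filter_upwards [h1] with j hj
      simp [hj]
    have h3 := J.add_mem (hIJ h2) (J.mul_mem_right (fun j => (x j)⁻¹) hxJ)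
    have h4 : (1 - x * (fun j => (x j)⁻¹) + x * (fun j => (x j)⁻¹) : ∀ j, K j) = 1 := by ring
    rwa [h4] at h3

theorem pf_ULF : T_ULF := by
  intro K _ _
  have hmax := UI_max K
  letI : Field ((∀ j, K j) ⧸ UI K) := Ideal.Quotient.field (UI K)
  have hz : ∀ f : ∀ i, K i, Ideal.Quotient.mk (UI K) f = 0 ↔
      ∀ᶠ i in (hyperfilter ℕ : Filter ℕ), f i = 0 := by
    intro f
    rw [← mem_UI]
    exact Ideal.Quotient.eq_zero_iff_mem
  refine ⟨(∀ j, K j) ⧸ UI K, inferInstance, ?_, Ideal.Quotient.mk (UI K),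
    Ideal.Quotient.mk_surjective, hz⟩
  refine charZero_of_inj_zero fun n h => ?_
  have h1 : Ideal.Quotient.mk (UI K) ((n : ℕ) : ∀ i, K i) = 0 := by
    rw [map_natCast]
    exact h
  rw [hz] at h1
  obtain ⟨i, hi⟩ := h1.exists
  have h2 : ((n : ℕ) : K i) = 0 := hi
  exact_mod_cast h2

end Pool.Agent.H72.BO
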