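import Pool.Agent.H17.BO.TargetsE
import Pool.Agent.H36.SC.V6

/-!
MP_70ba79_ag, board `bo_modules`, row HLK: heights in extensions.
-/

set_option autoImplicit false

namespace Pool.Agent.H72.BO

open MvPolynomial SC Pool.Agent.H27.LV Pool.Agent.H17.VG Pool.Agent.H17.BO

private theorem deg_one {k K : Type} [Field k] [IsAlgClosed k] [Field K] [Algebra k K]
    (v : DV k K) [Module.Finite k v.Res] : v.deg = 1 := by
  unfold DV.deg
  have h := IsAlgClosed.algebraMap_bijective_of_isIntegral (k := k) (K := v.Res)
  have e : k ≃ₗ[k] v.Res := LinearEquiv.ofBijective (Algebra.linearMap k v.Res) h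
  rw [← e.finrank_eq, Module.finrank_self]

private theorem h1_alg {k K : Type} [Field k] [Field K] [Algebra k K] (z : K)
    (hz : IsAlgebraic k z) : h1 k z = 0 := by
  unfold h1 Pool.Agent.H27.LV.deg
  refine (finsum_congr fun v => ?_).trans finsum_zero
  unfold poleOrder
  refine (Finset.sup_eq_bot_iff _ _).2 fun i _ => ?_
  rw [Pool.Agent.H36.SC.ord_eq_zero_of_isAlgebraic v hz]
  rfl

private theorem h1_transc (hV5 : T_V5) {k K : Type} [Field k] [IsAlgClosed k] [CharZero k]
    [Field K] [Algebra k K] [Algebra.EssFiniteType k K] (htr : Algebra.trdeg k K = 1) (z : K)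
    (hz : Transcendental k z) : h1 k z = Module.finrank (IntermediateField.adjoin k {z}) K := by
  obtain ⟨h1', h2, h3⟩ := hV5 k K z hz (Pool.Agent.H36.SC.fin_of_transc htr hz)
  have h4 : ∀ v : DV k K, (v.deg : ℤ) * max 0 (-v.ord z) =
      ((poleOrder v (fun _ : Fin 1 => z) : ℕ) : ℤ) := by
    intro v
    have h5 : poleOrder v (fun _ : Fin 1 => z) = (-(v.ord z)).toNat := by
      unfold poleOrder
      simp
    rw [h5]
    by_cases hv : v.ord z < 0
    · haveI := h2 v hv
      rw [deg_one v]
      omega
    · rw [max_eq_left (by omega), mul_zero]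
      omega
  rw [finsum_congr h4] at h3
  have hfin : (Function.support fun v : DV k K => poleOrder v (fun _ : Fin 1 => z)).Finite := by
    refine h1'.subset fun v hv => ?_
    rw [Function.mem_support] at hv
    by_contra h
    apply hv
    have h5 : poleOrder v (fun _ : Fin 1 => z) = (-(v.ord z)).toNat := by
      unfold poleOrder
      simp
    rw [h5]
    have h6 : ¬ v.ord z < 0 := h
    omega
  have h7 : ((h1 k z : ℕ) : ℤ) = ∑ᶠ v : DV k K,
      ((poleOrder v (fun _ : Fin 1 => z) : ℕ) : ℤ) := by
    unfold h1 Pool.Agent.H27.LV.deg
    exact (Nat.castAddMonoidHom ℤ).map_finsum hfin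
  rw [h3] at h7
  exact_mod_cast h7

private theorem der_zero {k L : Type} [Field k] [CharZero k] [Field L] [Algebra k L]
    (D : Derivation k L L) (t : L) [FiniteDimensional (IntermediateField.adjoin k {t}) L]
    (ht : D t = 0) : D = 0 := by
  have h1 : ∀ a ∈ IntermediateField.adjoin k {t}, D a = 0 := by
    intro a ha
    induction ha using IntermediateField.adjoin_induction with
    | mem y hy => rw [Set.mem_singleton_iff.1 hy, ht]
    | algebraMap x => exact D.map_algebraMap x
    | add x y _ _ hx hy => rw [map_add, hx, hy, add_zero]
    | inv x _ hx => rw [Derivation.leibniz_inv, hx, smul_zero]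
    | mul x y _ _ hx hy => rw [D.leibniz, hx, hy, smul_zero, smul_zero, add_zero]
  let D2 : Derivation (IntermediateField.adjoin k {t}) L L :=
    Derivation.mk' { toFun := D
                     map_add' := map_add D
                     map_smul' := by
                       intro e x
                       have h2 : e • x = (e : L) * x := rfl
                       rw [h2, D.leibniz, h1 e e.2, smul_zero, add_zero]
                       rfl } (by
      intro a b
      exact D.leibniz a b)
  have hD2 : ∀ x, D2 x = D x := fun _ => rfl
  ext z
  have hint : IsIntegral (IntermediateField.adjoin k {t}) z := Algebra.IsIntegral.isIntegral z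
  have hsep : (minpoly (IntermediateField.adjoin k {t}) z).Separable :=
    (minpoly.irreducible hint).separable
  have h3 := D2.map_aeval (minpoly (IntermediateField.adjoin k {t}) z) z
  rw [minpoly.aeval, map_zero] at h3
  have h4 : Polynomial.aeval z
      (Polynomial.derivative (minpoly (IntermediateField.adjoin k {t}) z)) ≠ 0 :=
    hsep.aeval_derivative_ne_zero (minpoly.aeval _ _)
  have h5 := (smul_eq_zero.1 h3.symm).resolve_left h4
  rw [hD2] at h5
  rw [h5]
  rfl

theorem pf_HLK (hV5 : T_V5) : T_HLK := by
  intro k K L _ _ _ _ _ _ _ _ _ _ _ _ htK htL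
  refine ⟨fun a => ?_, fun D' hD' t ht => ?_⟩
  · by_cases ha : IsAlgebraic k a
    · rw [h1_alg a ha, h1_alg _ (ha.algebraMap (A := L)), mul_zero]
    · have ht : Transcendental k a := ha
      have hinj : Function.Injective (algebraMap K L) := (algebraMap K L).injective
      have ht2 : Transcendental k (algebraMap K L a) := by
        intro h
        exact ha ((isAlgebraic_algebraMap_iff hinj).1 h)
      rw [h1_transc hV5 htK a ht, h1_transc hV5 htL _ ht2]
      set E := IntermediateField.adjoin k {a} with hE
      have h2 : E.map (IsScalarTower.toAlgHom k K L) =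
          IntermediateField.adjoin k {algebraMap K L a} := by
        rw [hE, IntermediateField.adjoin_map, Set.image_singleton]
        rfl
      rw [← h2]
      have h3 : Module.finrank E L =
          Module.finrank (E.map (IsScalarTower.toAlgHom k K L)) L := by
        refine Algebra.finrank_eq_of_equiv_equiv
          (IntermediateField.equivMap E (IsScalarTower.toAlgHom k K L)).toRingEquiv
          (RingEquiv.refl L) ?_
        ext x
        rfl
      rw [← h3, mul_comm, ← Module.finrank_mul_finrank E K L]
  · by_cases hta : IsAlgebraic k t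
    · exact h1_alg t hta
    · exfalso
      haveI := Pool.Agent.H36.SC.fin_of_transc htL (show Transcendental k t from hta)
      exact hD' (der_zero D' t ht)

end Pool.Agent.H72.BO
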