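import Pool.Agent.H17.BO.TargetsD

/-!
MP_70ba79_ag, board `bo_modules`, row TFL: transfer of lines.
-/

set_option autoImplicit false

open Filter

namespace Pool.Agent.H72.BO

open MvPolynomial SC Pool.Agent.H27.LV Pool.Agent.H17.VG Pool.Agent.H17.BO

/-- the heights of the quotients of minors -/
private theorem line_core (hHTA : T_HTA) (k K : Type) [Field k] [IsAlgClosed k] [CharZero k]
    [Field K] [Algebra k K] [Algebra.EssFiniteType k K] (htr : Algebra.trdeg k K = 1) (n b : ℕ)
    (x u v : Fin (n + 1) → K) (s t : K) (p : Fin (n + 1)) (hp : x p = 1)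
    (hx : ∀ j, x j = s * u j + t * v j) (hu : ∀ j, h1 k (u j) ≤ b) (hv : ∀ j, h1 k (v j) ≤ b) :
    deg k x ≤ (n + 1) ^ 2 * 8 * b ∨ ∃ (z : Fin (n + 1) → K) (a b' : Fin (n + 1)), Indep x z ∧
      x a * z b' - x b' * z a ≠ 0 ∧ hln k x z a b' ≤ (n + 1) ^ 2 * 8 * b := by
  classical
  have hA := hHTA k K htr
  have hadd : ∀ z w : K, h1 k (z + w) ≤ h1 k z + h1 k w := fun z w => (hA z w).1
  have hmul : ∀ z w : K, h1 k (z * w) ≤ h1 k z + h1 k w := fun z w => (hA z w).2.1
  have hinv : ∀ z : K, h1 k z⁻¹ = h1 k z := fun z => (hA z z).2.2.1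
  have hneg : ∀ z : K, h1 k (-z) ≤ h1 k z := by
    intro z
    have h3 := hmul (-1) z
    have h4 := (hA 1 1).2.2.2.1 (-1)
    rw [map_neg, map_one] at h4
    rwa [h4, neg_one_mul, zero_add] at h3
  have hdeg : ∀ (ι : Type) [Fintype ι] (w : ι → K) (c : ℕ), (∀ i, h1 k (w i) ≤ c) →
      deg k w ≤ Fintype.card ι * c := by
    intro ι _ w c hw
    refine ((hA 1 1).2.2.2.2 ι w).2.trans ?_
    refine (Finset.sum_le_sum fun i _ => hw i).trans ?_
    rw [Finset.sum_const, smul_eq_mul, Finset.card_univ]
  by_cases hind : LinearIndependent K ![u, v]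
  · right
    have h2 : ∃ z : Fin (n + 1) → K, (z = u ∨ z = v) ∧ Indep x z := by
      by_contra hcon
      push Not at hcon
      have hxu := hcon u (Or.inl rfl)
      have hxv := hcon v (Or.inr rfl)
      have key : ∀ z : Fin (n + 1) → K, ¬ Indep x z → z = z p • x := by
        intro z hz
        unfold Indep at hz
        rw [LinearIndependent.pair_iff] at hz
        push Not at hz
        obtain ⟨α, β, h3, h4⟩ := hz
        have h5 : ∀ j, α * x j + β * z j = 0 := by
          intro j
          have := congrFun h3 j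
          simpa using this
        have h6 := h5 p
        rw [hp, mul_one] at h6
        have hβ : β ≠ 0 := by
          intro hβ
          rw [hβ, zero_mul, add_zero] at h6
          exact h4 h6 hβ
        funext j
        have h7 := h5 j
        have h8 : α = -(β * z p) := by linear_combination h6
        rw [h8] at h7
        have h9 : β * (z j - z p * x j) = 0 := by linear_combination h7
        rcases mul_eq_zero.1 h9 with h10 | h10
        · exact absurd h10 hβ
        · rw [Pi.smul_apply, smul_eq_mul]
          linear_combination h10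
      have h3 := key u hxu
      have h4 := key v hxv
      rw [LinearIndependent.pair_iff] at hind
      have h5 := hind (v p) (-(u p)) (by
        rw [h3, h4]
        funext j
        simp only [Pi.add_apply, Pi.smul_apply, smul_eq_mul, Pi.zero_apply, hp]
        ring)
      have hvp := h5.1
      have hup : u p = 0 := by simpa using h5.2
      rw [hup, zero_smul] at h3
      rw [hvp, zero_smul] at h4
      have h6 := hx p
      rw [h3, h4, hp] at h6
      simp at h6
    obtain ⟨z, hz, hxz⟩ := h2
    have h3 : ∃ b', x p * z b' - x b' * z p ≠ 0 := by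
      by_contra hcon
      push Not at hcon
      unfold Indep at hxz
      rw [LinearIndependent.pair_iff] at hxz
      have h4 := hxz (z p) (-1) (by
        funext j
        have h5 := hcon j
        rw [hp] at h5
        simp only [Pi.add_apply, Pi.smul_apply, smul_eq_mul, Pi.zero_apply]
        linear_combination -h5)
      exact absurd h4.2 (by simp)
    obtain ⟨b', hb'⟩ := h3
    refine ⟨z, p, b', hxz, hb', ?_⟩
    have hr : ∃ r : K, ∀ j l, x j * z l - x l * z j = r * (u j * v l - u l * v j) := by
      rcases hz with hz | hz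
      · refine ⟨-t, fun j l => ?_⟩
        rw [hz, hx j, hx l]
        ring
      · refine ⟨s, fun j l => ?_⟩
        rw [hz, hx j, hx l]
        ring
    obtain ⟨r, hr⟩ := hr
    have hr0 : r ≠ 0 := by
      intro h0
      apply hb'
      rw [hr, h0, zero_mul]
    have hm : ∀ j l, h1 k (u j * v l - u l * v j) ≤ 4 * b := by
      intro j l
      rw [sub_eq_add_neg]
      refine (hadd _ _).trans ?_
      have e1 := hmul (u j) (v l)
      have e2 := (hneg (u l * v j)).trans (hmul (u l) (v j))
      have := hu j
      have := hu l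
      have := hv j
      have := hv l
      omega
    unfold hln
    refine (hdeg _ _ (8 * b) fun ij => ?_).trans ?_
    · rw [hr, hr, mul_div_mul_left _ _ hr0, div_eq_mul_inv]
      refine (hmul _ _).trans ?_
      rw [hinv]
      have e1 := hm ij.1 ij.2
      have e2 := hm p b'
      omega
    · rw [Fintype.card_prod, Fintype.card_fin]
      apply le_of_eq
      ring
  · left
    have h2 : ∃ (w : Fin (n + 1) → K) (r : K), (∀ j, h1 k (w j) ≤ b) ∧ ∀ j, x j = r * w j := by
      rw [LinearIndependent.pair_iff] at hind
      push Not at hind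
      obtain ⟨α, β, h3, h4⟩ := hind
      have h5 : ∀ j, α * u j + β * v j = 0 := by
        intro j
        have := congrFun h3 j
        simpa using this
      by_cases hβ : β = 0
      · refine ⟨v, t, hv, fun j => ?_⟩
        have h6 := h5 j
        rw [hβ, zero_mul, add_zero] at h6
        rcases mul_eq_zero.1 h6 with h7 | h7
        · exact absurd hβ (h4 h7)
        · rw [hx j, h7, mul_zero, zero_add]
      · refine ⟨u, s - t * α / β, hu, fun j => ?_⟩
        have h6 : v j = -(α / β) * u j := by
          field_simp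
          linear_combination h5 j
        rw [hx j, h6]
        ring
    obtain ⟨w, r, hw, hxw⟩ := h2
    have h3 := hxw p
    rw [hp] at h3
    have hwp : w p ≠ 0 := by
      intro h0
      rw [h0, mul_zero] at h3
      exact one_ne_zero h3
    have hxj : ∀ j, x j = w j * (w p)⁻¹ := by
      intro j
      have h4 : r = (w p)⁻¹ := by
        field_simp
        exact h3.symm
      rw [hxw j, h4, mul_comm]
    refine (hdeg _ x (2 * b) fun j => ?_).trans ?_
    · rw [hxj]
      refine (hmul _ _).trans ?_
      rw [hinv]
      have := hw j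
      have := hw p
      omega
    · rw [Fintype.card_fin]
      nlinarith [Nat.zero_le (n * n * b), Nat.zero_le (n * b), Nat.zero_le b]

theorem pf_TFL (hHTA : T_HTA) : T_TFL := by
  classical
  intro k K _ _ _ _ _ _ htr B L _ k' _ _ π hπs hπ hrange n x p hp hline
  obtain ⟨u, v, s, t, hx⟩ := hline
  have hrep : ∀ z : k', ∃ f : ∀ i, K i, π f = algebraMap k' L z ∧ ∃ N : ℕ,
      ∀ᶠ i in (hyperfilter ℕ : Filter ℕ), h1 (k i) (f i) ≤ N * B i := by
    intro z
    obtain ⟨f, hf⟩ := hπs (algebraMap k' L z)
    exact ⟨f, hf, (hrange f).1 ⟨z, hf.symm⟩⟩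
  choose U hU NU hNU using fun j => hrep (u j)
  choose V hV NV hNV using fun j => hrep (v j)
  obtain ⟨S, hS⟩ := hπs s
  obtain ⟨T, hT⟩ := hπs t
  have heq : ∀ j, ∀ᶠ i in (hyperfilter ℕ : Filter ℕ),
      x i j = S i * U j i + T i * V j i := by
    intro j
    have h2 : π ((fun i => x i j) - (S * U j + T * V j)) = 0 := by
      rw [map_sub, map_add, map_mul, map_mul, hS, hT, hU, hV, ← hx j, sub_self]
    rw [hπ] at h2
    filter_upwards [h2] with i hi
    exact sub_eq_zero.1 hi
  have hall := eventually_all.2 heq
  have hUa := eventually_all.2 hNU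
  have hVa := eventually_all.2 hNV
  refine ⟨(n + 1) ^ 2 * 8 * (∑ j, NU j + ∑ j, NV j), ?_⟩
  filter_upwards [hall, hUa, hVa] with i e1 e2 e3
  have hb1 : ∀ j, h1 (k i) (U j i) ≤ (∑ j, NU j + ∑ j, NV j) * B i := by
    intro j
    refine (e2 j).trans (Nat.mul_le_mul_right _ ?_)
    have := Finset.single_le_sum (f := NU) (fun _ _ => Nat.zero_le _) (Finset.mem_univ j)
    omega
  have hb2 : ∀ j, h1 (k i) (V j i) ≤ (∑ j, NU j + ∑ j, NV j) * B i := by
    intro j
    refine (e3 j).trans (Nat.mul_le_mul_right _ ?_)
    have := Finset.single_le_sum (f := NV) (fun _ _ => Nat.zero_le _) (Finset.mem_univ j)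
    omega
  have := line_core hHTA (k i) (K i) (htr i) n _ (x i) (fun j => U j i) (fun j => V j i) (S i)
    (T i) (p i) (hp i) e1 hb1 hb2
  rw [Nat.mul_assoc]
  exact this

end Pool.Agent.H72.BO
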