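import Pool.Agent.H17.BO.TargetsD

/-!
MP_70ba79_ag, board `bo_modules`, row ULT: ultraproducts of function fields and the elements of
height `O (B i)`.
-/

set_option autoImplicit false

open Filter

namespace Pool.Agent.H72.BO

open MvPolynomial SC Pool.Agent.H27.LV Pool.Agent.H17.VG Pool.Agent.H17.BO

theorem pf_ULT (hULF : T_ULF) (hHTA : T_HTA) (hHTR : T_HTR) : T_ULT := by
  classical
  intro k K _ _ _ _ _ _ htr B
  haveI hcz : ∀ i, CharZero (K i) := fun i =>
    charZero_of_injective_algebraMap (algebraMap (k i) (K i)).injective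
  obtain ⟨L, _, _, π, hπs, hπ⟩ := hULF K
  have hA := fun i => hHTA (k i) (K i) (htr i)
  have hinv : ∀ f : ∀ i, K i, π (fun i => (f i)⁻¹) = (π f)⁻¹ := by
    intro f
    by_cases h0 : π f = 0
    · rw [h0, inv_zero, hπ]
      filter_upwards [(hπ f).1 h0] with i hi
      rw [hi, inv_zero]
    · refine eq_inv_of_mul_eq_one_left ?_
      rw [← map_mul, ← sub_eq_zero, ← map_one π, ← map_sub, hπ]
      have h1 : ∀ᶠ i in (hyperfilter ℕ : Filter ℕ), f i ≠ 0 := by
        refine Ultrafilter.eventually_not.2 fun h => h0 ((hπ f).2 h)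
      filter_upwards [h1] with i hi
      change (f i)⁻¹ * f i - 1 = 0
      rw [inv_mul_cancel₀ hi, sub_self]
  let S : Subfield L :=
    { carrier := {z | ∃ f, π f = z ∧ ∃ N : ℕ, ∀ᶠ i in (hyperfilter ℕ : Filter ℕ),
        h1 (k i) (f i) ≤ N * B i}
      mul_mem' := by
        rintro a b ⟨f, rfl, N, hN⟩ ⟨g, rfl, M, hM⟩
        refine ⟨f * g, map_mul _ _ _, N + M, ?_⟩
        filter_upwards [hN, hM] with i h2 h3
        refine ((hA i (f i) (g i)).2.1).trans ?_
        rw [Nat.add_mul]
        exact Nat.add_le_add h2 h3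
      one_mem' := by
        refine ⟨1, map_one _, 0, Eventually.of_forall fun i => ?_⟩
        have h2 := (hA i 1 1).2.2.2.1 1
        rw [map_one] at h2
        change h1 (k i) (1 : K i) ≤ _
        rw [h2]
        exact Nat.zero_le _
      add_mem' := by
        rintro a b ⟨f, rfl, N, hN⟩ ⟨g, rfl, M, hM⟩
        refine ⟨f + g, map_add _ _ _, N + M, ?_⟩
        filter_upwards [hN, hM] with i h2 h3
        refine ((hA i (f i) (g i)).1).trans ?_
        rw [Nat.add_mul]
        exact Nat.add_le_add h2 h3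
      zero_mem' := by
        refine ⟨0, map_zero _, 0, Eventually.of_forall fun i => ?_⟩
        have h2 := (hA i 1 1).2.2.2.1 0
        rw [map_zero] at h2
        change h1 (k i) (0 : K i) ≤ _
        rw [h2]
        exact Nat.zero_le _
      neg_mem' := by
        rintro a ⟨f, rfl, N, hN⟩
        refine ⟨-f, map_neg _ _, N, ?_⟩
        filter_upwards [hN] with i h2
        have h3 := (hA i (-1) (f i)).2.1
        have h4 := (hA i 1 1).2.2.2.1 (-1)
        rw [map_neg, map_one] at h4
        rw [h4, neg_one_mul, zero_add] at h3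
        exact h3.trans h2
      inv_mem' := by
        rintro a ⟨f, rfl, N, hN⟩
        refine ⟨fun i => (f i)⁻¹, hinv f, N, ?_⟩
        filter_upwards [hN] with i h2
        change h1 (k i) (f i)⁻¹ ≤ _
        rw [(hA i (f i) 1).2.2.1]
        exact h2 }
  have hmem : ∀ z : L, z ∈ S ↔ ∃ f, π f = z ∧ ∃ N : ℕ,
      ∀ᶠ i in (hyperfilter ℕ : Filter ℕ), h1 (k i) (f i) ≤ N * B i := fun z => Iff.rfl
  have hrange : ∀ z : L, z ∈ Set.range (algebraMap S L) ↔ z ∈ S := by
    intro z
    constructor
    · rintro ⟨y, rfl⟩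
      exact y.2
    · intro hz
      exact ⟨⟨z, hz⟩, rfl⟩
  refine ⟨L, inferInstance, inferInstance, S, inferInstance, inferInstance, inferInstance, π, hπs,
    hπ, ?_, ?_⟩
  · intro f
    rw [hrange, hmem]
    constructor
    · rintro ⟨g, hg, N, hN⟩
      refine ⟨N, ?_⟩
      have h2 : π (g - f) = 0 := by rw [map_sub, hg, sub_self]
      rw [hπ] at h2
      filter_upwards [hN, h2] with i h3 h4
      have h5 : g i = f i := sub_eq_zero.1 h4
      rwa [← h5]
    · rintro ⟨N, hN⟩
      exact ⟨f, rfl, N, hN⟩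
  · intro z hz
    rw [hrange]
    have hint : IsIntegral S z := hz.isIntegral
    obtain ⟨f, rfl⟩ := hπs z
    have hmon := minpoly.monic hint
    have haev := minpoly.aeval S (π f)
    set p := minpoly S (π f) with hp
    have hco : ∀ j : Fin p.natDegree, ∃ a : ∀ i, K i, π a = algebraMap S L (p.coeff j) ∧
        ∃ N : ℕ, ∀ᶠ i in (hyperfilter ℕ : Filter ℕ), h1 (k i) (a i) ≤ N * B i := by
      intro j
      have h2 := (p.coeff j).2
      rw [hmem] at h2
      exact h2
    choose a ha N hN using hco
    have heq : π (fun i => f i ^ p.natDegree + ∑ j : Fin p.natDegree, a j i * f i ^ (j : ℕ)) =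
        0 := by
      have h2 : (fun i => f i ^ p.natDegree + ∑ j : Fin p.natDegree, a j i * f i ^ (j : ℕ)) =
          f ^ p.natDegree + ∑ j : Fin p.natDegree, a j * f ^ (j : ℕ) := by
        funext i
        simp [Finset.sum_apply]
      rw [h2, map_add, map_pow, map_sum]
      rw [Polynomial.aeval_eq_sum_range, Finset.sum_range_succ, hmon.coeff_natDegree, one_smul,
        Finset.sum_range] at haev
      rw [← haev, add_comm]
      congr 1
      refine Finset.sum_congr rfl fun j _ => ?_
      rw [map_mul, map_pow, ha, Algebra.smul_def]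
    rw [hπ] at heq
    rw [hmem]
    refine ⟨f, rfl, ∑ j, N j, ?_⟩
    have hall : ∀ᶠ i in (hyperfilter ℕ : Filter ℕ), ∀ j, h1 (k i) (a j i) ≤ N j * B i :=
      eventually_all.2 hN
    filter_upwards [heq, hall] with i h2 h3
    refine (hHTR (k i) (K i) (htr i) p.natDegree (fun j => a j i) (f i) h2).trans ?_
    rw [Finset.sum_mul]
    exact Finset.sum_le_sum fun j _ => h3 j

end Pool.Agent.H72.BO
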