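import Pool.Agent.H17.BO.TargetsX

/-!
MP_70ba79_ag, board `bo_modules`, row XPC: the exceptional conics are given by polynomial equations.
-/

set_option autoImplicit false

namespace Pool.Agent.H72.BO

open MvPolynomial SC Pool.Agent.H27.LV Pool.Agent.H17.VG Pool.Agent.H17.BO

private theorem aeval_mono {K A : Type} [Field K] [CommRing A] [Algebra K A] {n : ℕ}
    (g : Fin (n + 1) → A) (f : Fin (n + 1) → ℕ) :
    aeval g (mono K f) = ∏ i, g i ^ f i := by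
  unfold mono
  rw [aeval_monomial, map_one, one_mul, Finsupp.prod_fintype _ _ (fun i => by simp)]
  rfl

private theorem aeval_frm {K A : Type} [Field K] [CommRing A] [Algebra K A] {n d : ℕ}
    (g : Fin (n + 1) → A) (c : Mon (n + 1) d → K) :
    aeval g (frm c) = ∑ M, algebraMap K A (c M) * ∏ i, g i ^ M.1 i := by
  unfold frm
  rw [map_sum]
  refine Finset.sum_congr rfl fun M _ => ?_
  rw [map_mul, aeval_C, aeval_mono]

theorem pf_XPC : T_XPC := by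
  classical
  intro n d i j p q r
  obtain ⟨ch, hch⟩ : ∃ ch : Mon (n + 1) d → MvPolynomial ((Mon (n + 1) d ⊕
      {l : Fin (n + 1) // l ≠ p}) ⊕ (Fin (n + 1) ⊕ Fin (n + 1) ⊕ Fin 3)) ℚ,
      ch = fun M => X (Sum.inl (Sum.inl M)) := ⟨_, rfl⟩
  obtain ⟨xh, hxh⟩ : ∃ xh : Fin (n + 1) → MvPolynomial ((Mon (n + 1) d ⊕
      {l : Fin (n + 1) // l ≠ p}) ⊕ (Fin (n + 1) ⊕ Fin (n + 1) ⊕ Fin 3)) ℚ,
      xh = fun l => if h : l = p then 1 else X (Sum.inl (Sum.inr ⟨l, h⟩)) := ⟨_, rfl⟩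
  obtain ⟨bh, hbh⟩ : ∃ bh : Fin (n + 1) → MvPolynomial ((Mon (n + 1) d ⊕
      {l : Fin (n + 1) // l ≠ p}) ⊕ (Fin (n + 1) ⊕ Fin (n + 1) ⊕ Fin 3)) ℚ,
      bh = fun l => X (Sum.inr (Sum.inl l)) := ⟨_, rfl⟩
  obtain ⟨eh, heh⟩ : ∃ eh : Fin (n + 1) → MvPolynomial ((Mon (n + 1) d ⊕
      {l : Fin (n + 1) // l ≠ p}) ⊕ (Fin (n + 1) ⊕ Fin (n + 1) ⊕ Fin 3)) ℚ,
      eh = fun l => X (Sum.inr (Sum.inr (Sum.inl l))) := ⟨_, rfl⟩
  obtain ⟨zh, hzh⟩ : ∃ zh : Fin 3 → MvPolynomial ((Mon (n + 1) d ⊕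
      {l : Fin (n + 1) // l ≠ p}) ⊕ (Fin (n + 1) ⊕ Fin (n + 1) ⊕ Fin 3)) ℚ,
      zh = fun l => X (Sum.inr (Sum.inr (Sum.inr l))) := ⟨_, rfl⟩
  obtain ⟨G, hG⟩ : ∃ G : Polynomial (MvPolynomial ((Mon (n + 1) d ⊕
      {l : Fin (n + 1) // l ≠ p}) ⊕ (Fin (n + 1) ⊕ Fin (n + 1) ⊕ Fin 3)) ℚ),
      G = ∑ M, Polynomial.C (ch M) * ∏ l, (Polynomial.C (xh l) + Polynomial.C (bh l) *
        Polynomial.X + Polynomial.C (eh l) * Polynomial.X ^ 2) ^ M.1 l := ⟨_, rfl⟩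
  obtain ⟨E, hE⟩ : ∃ E : MvPolynomial ((Mon (n + 1) d ⊕
      {l : Fin (n + 1) // l ≠ p}) ⊕ (Fin (n + 1) ⊕ Fin (n + 1) ⊕ Fin 3)) ℚ,
      E = ∑ M, ch M * ∏ l, xh l ^ M.1 l := ⟨_, rfl⟩
  obtain ⟨Q, hQ⟩ : ∃ Q : Polynomial (MvPolynomial ((Mon (n + 1) d ⊕
      {l : Fin (n + 1) // l ≠ p}) ⊕ (Fin (n + 1) ⊕ Fin (n + 1) ⊕ Fin 3)) ℚ),
      Q = G - Polynomial.C E * (1 + Polynomial.C (zh 0) * Polynomial.X) ^ i *
        (1 + Polynomial.C (zh 1) * Polynomial.X) ^ j := ⟨_, rfl⟩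
  obtain ⟨Dt, hDt⟩ : ∃ Dt : MvPolynomial ((Mon (n + 1) d ⊕
      {l : Fin (n + 1) // l ≠ p}) ⊕ (Fin (n + 1) ⊕ Fin (n + 1) ⊕ Fin 3)) ℚ,
      Dt = (Matrix.of fun u v : Fin 3 => (![xh, bh, eh] : Fin 3 → Fin (n + 1) → _) u
        ((![p, q, r] : Fin 3 → Fin (n + 1)) v)).det := ⟨_, rfl⟩
  refine ⟨{bh p} ∪ ({bh q - 1} ∪ ({Dt * zh 2 - 1} ∪ {f | ∃ m, f = Q.coeff m})), ?_⟩
  intro L _ _ c x' b c' z
  obtain ⟨φ, hφ⟩ : ∃ φ : MvPolynomial ((Mon (n + 1) d ⊕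
      {l : Fin (n + 1) // l ≠ p}) ⊕ (Fin (n + 1) ⊕ Fin (n + 1) ⊕ Fin 3)) ℚ →ₐ[ℚ] L,
      φ = aeval (Sum.elim (Sum.elim c x') (Sum.elim b (Sum.elim c' z))) := ⟨_, rfl⟩
  rw [← hφ]
  have h1 : ∀ M, φ (ch M) = c M := by
    intro M
    rw [hφ, hch]
    simp
  have h2 : ∀ l, φ (xh l) = pt p x' l := by
    intro l
    rw [hφ, hxh]
    unfold pt
    by_cases h : l = p
    · simp [h]
    · simp [h]
  have h3 : ∀ l, φ (bh l) = b l := by
    intro l
    rw [hφ, hbh]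
    simp
  have h4 : ∀ l, φ (eh l) = c' l := by
    intro l
    rw [hφ, heh]
    simp
  have h5 : ∀ l, φ (zh l) = z l := by
    intro l
    rw [hφ, hzh]
    simp
  have hGm : G.map (φ : _ →+* L) = res2 (pt p x') b c' (frm c) := by
    unfold res2
    rw [aeval_frm, hG, Polynomial.map_sum]
    refine Finset.sum_congr rfl fun M _ => ?_
    rw [Polynomial.map_mul, Polynomial.map_prod, Polynomial.map_C]
    have e1 : (φ : _ →+* L) (ch M) = c M := h1 M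
    rw [e1]
    congr 1
    refine Finset.prod_congr rfl fun l _ => ?_
    rw [Polynomial.map_pow, Polynomial.map_add, Polynomial.map_add, Polynomial.map_mul,
      Polynomial.map_mul, Polynomial.map_pow, Polynomial.map_C, Polynomial.map_C,
      Polynomial.map_C, Polynomial.map_X]
    have e2 : (φ : _ →+* L) (xh l) = pt p x' l := h2 l
    have e3 : (φ : _ →+* L) (bh l) = b l := h3 l
    have e4 : (φ : _ →+* L) (eh l) = c' l := h4 l
    rw [e2, e3, e4]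
  have hEm : φ E = eval (pt p x') (frm c) := by
    have e0 : eval (pt p x') (frm c) = aeval (pt p x') (frm c) := by
      rw [aeval_eq_eval]
    rw [e0, aeval_frm, hE, map_sum]
    refine Finset.sum_congr rfl fun M _ => ?_
    rw [map_mul, h1, map_prod]
    congr 1
    refine Finset.prod_congr rfl fun l _ => ?_
    rw [map_pow, h2]
  have hDm : φ Dt = (Matrix.of fun u v : Fin 3 =>
      (![pt p x', b, c'] : Fin 3 → Fin (n + 1) → L) u
        ((![p, q, r] : Fin 3 → Fin (n + 1)) v)).det := by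
    rw [hDt, AlgHom.map_det]
    congr 1
    ext u v
    rw [AlgHom.mapMatrix_apply, Matrix.map_apply, Matrix.of_apply, Matrix.of_apply]
    fin_cases u
    · exact h2 _
    · exact h3 _
    · exact h4 _
  have hQm : Q.map (φ : _ →+* L) = res2 (pt p x') b c' (frm c) -
      Polynomial.C (eval (pt p x') (frm c)) * (1 + Polynomial.C (z 0) * Polynomial.X) ^ i *
        (1 + Polynomial.C (z 1) * Polynomial.X) ^ j := by
    rw [hQ]
    simp only [Polynomial.map_sub, Polynomial.map_mul, Polynomial.map_pow, Polynomial.map_add,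
      Polynomial.map_one, Polynomial.map_C, Polynomial.map_X]
    rw [hGm]
    have e1 : (φ : _ →+* L) E = eval (pt p x') (frm c) := hEm
    have e2 : (φ : _ →+* L) (zh 0) = z 0 := h5 0
    have e3 : (φ : _ →+* L) (zh 1) = z 1 := h5 1
    rw [e1, e2, e3]
  constructor
  · intro h
    refine ⟨?_, ?_, ?_, ?_⟩
    · rw [← h3]
      exact h _ (Or.inl rfl)
    · have e1 := h _ (Or.inr (Or.inl rfl))
      rw [map_sub, map_one, h3] at e1
      exact sub_eq_zero.1 e1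
    · have e1 := h _ (Or.inr (Or.inr (Or.inl rfl)))
      rw [map_sub, map_one, map_mul, hDm, h5] at e1
      exact sub_eq_zero.1 e1
    · rw [← sub_eq_zero, ← hQm]
      ext m
      rw [Polynomial.coeff_zero, Polynomial.coeff_map]
      exact h _ (Or.inr (Or.inr (Or.inr ⟨m, rfl⟩)))
  · rintro ⟨e1, e2, e3, e4⟩ f (rfl | rfl | rfl | ⟨m, rfl⟩)
    · rw [h3, e1]
    · rw [map_sub, map_one, h3, e2, sub_self]
    · rw [map_sub, map_one, map_mul, hDm, h5, e3, sub_self]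
    · rw [e4, sub_self] at hQm
      have e5 := congrArg (fun p => Polynomial.coeff p m) hQm
      simp only [Polynomial.coeff_map, Polynomial.coeff_zero] at e5
      exact e5

end Pool.Agent.H72.BO
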